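import Pool.Agent.Helper67.RRHurwitz
import Pool.Agent.Helper45.S4Clos

/-!
# The norm formula for places in a finite separable extension of function fields
-/

set_option autoImplicit false
set_option linter.style.haveILetI false
set_option linter.unusedSectionVars false

namespace Pool.Agent.Helper47.RR

open Pool.Agent.Helper16 Pool.Agent.Helper45.S4

section gal

variable {k L N : Type} [Field k] [Field L] [Field N] [Algebra k L] [Algebra k N] [Algebra L N]
  [IsScalarTower k L N]

theorem place_ord_pow {k L : Type} [Field k] [Field L] [Algebra k L] (v : Place k L) (x : L)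
    (n : ℕ) : v.ord (x ^ n) = n * v.ord x := by
  unfold Place.ord
  rw [map_pow, WithZero.log_pow]
  simp

/-- The norm formula in the Galois case. -/
theorem ord_norm_gal [IsAlgClosed k] (hL : IsFunctionField k L) [FiniteDimensional L N]
    [IsGalois L N] (v : Place k L) (f : N) (hf : f ≠ 0) :
    v.ord (Algebra.norm L f) = ∑ w ∈ fib (M := N) hL v, w.ord f := by
  classical
  obtain ⟨w₀, hw₀⟩ := exists_above (M := N) hL v
  have h1 : w₀.ord (algebraMap L N (Algebra.norm L f)) =
      ram hL w₀ * v.ord (Algebra.norm L f) := by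
    rw [ord_algebraMap hL, hw₀]
  have h2 : w₀.ord (algebraMap L N (Algebra.norm L f)) =
      ∑ σ : N ≃ₐ[L] N, (act (σ.restrictScalars k) w₀).ord f := by
    rw [Algebra.norm_eq_prod_automorphisms, ord_prod w₀ _ _ (fun σ _ => by simpa using hf)]
    rw [← Equiv.sum_comp (Equiv.inv (N ≃ₐ[L] N))]
    rfl
  have h3 : ∑ σ : N ≃ₐ[L] N, (act (σ.restrictScalars k) w₀).ord f =
      ∑ w ∈ fib (M := N) hL v, ∑ σ ∈ (Finset.univ : Finset (N ≃ₐ[L] N)).filter
        (fun σ => act (σ.restrictScalars k) w₀ = w), (act (σ.restrictScalars k) w₀).ord f := by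
    refine (Finset.sum_fiberwise_of_maps_to (fun σ _ => ?_) _).symm
    rw [mem_fib, ← hw₀]
    exact (resPl_act hL σ w₀).1
  have h4 : ∀ w ∈ fib (M := N) hL v, ∑ σ ∈ (Finset.univ : Finset (N ≃ₐ[L] N)).filter
        (fun σ => act (σ.restrictScalars k) w₀ = w), (act (σ.restrictScalars k) w₀).ord f =
      ram hL w₀ * w.ord f := by
    intro w hw
    rw [mem_fib] at hw
    obtain ⟨τ, hτ⟩ := exists_act_eq hL w₀ w (hw₀.trans hw.symm)
    have h5 : ((Finset.univ : Finset (N ≃ₐ[L] N)).filter
        (fun σ => act (σ.restrictScalars k) w₀ = w)).card = ram hL w₀ := by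
      rw [← card_stab hL w₀, Nat.card_eq_fintype_card, Fintype.card_subtype]
      refine Finset.card_bij (fun σ _ => τ⁻¹ * σ) ?_ ?_ ?_
      · intro σ hσ
        rw [Finset.mem_filter] at hσ ⊢
        refine ⟨Finset.mem_univ _, ?_⟩
        have h6 : act ((τ⁻¹ * σ).restrictScalars k) w₀ =
            act (τ⁻¹.restrictScalars k) (act (σ.restrictScalars k) w₀) :=
          act_mul (τ⁻¹.restrictScalars k) (σ.restrictScalars k) w₀
        rw [h6, hσ.2, ← hτ]
        have h7 : act (τ⁻¹.restrictScalars k) (act (τ.restrictScalars k) w₀) =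
            act ((τ⁻¹ * τ).restrictScalars k) w₀ :=
          (act_mul (τ⁻¹.restrictScalars k) (τ.restrictScalars k) w₀).symm
        rw [h7, inv_mul_cancel]
        exact act_one w₀
      · intro σ _ σ' _ h
        exact mul_left_cancel h
      · intro σ hσ
        rw [Finset.mem_filter] at hσ
        refine ⟨τ * σ, ?_, by simp⟩
        rw [Finset.mem_filter]
        refine ⟨Finset.mem_univ _, ?_⟩
        have h6 : act ((τ * σ).restrictScalars k) w₀ =
            act (τ.restrictScalars k) (act (σ.restrictScalars k) w₀) :=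
          act_mul (τ.restrictScalars k) (σ.restrictScalars k) w₀
        rw [h6, hσ.2, hτ]
    rw [Finset.sum_congr rfl (fun σ hσ => by rw [(Finset.mem_filter.1 hσ).2]),
      Finset.sum_const, h5, nsmul_eq_mul]
  rw [h3, Finset.sum_congr rfl h4, ← Finset.mul_sum] at h2
  rw [h1] at h2
  have hr : (ram hL w₀ : ℤ) ≠ 0 := by
    have := ram_pos hL w₀
    positivity
  exact mul_left_cancel₀ hr h2

end gal

section sep

variable {k L M : Type} [Field k] [Field L] [Field M] [Algebra k L] [Algebra k M] [Algebra L M]
  [IsScalarTower k L M]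

theorem resPl_resPl {N : Type} [Field N] [Algebra k N] [Algebra L N] [Algebra M N]
    [IsScalarTower k L N] [IsScalarTower k M N] [IsScalarTower L M N]
    (hL : IsFunctionField k L) (hM : IsFunctionField k M)
    [Algebra.IsAlgebraic L M] [Algebra.IsAlgebraic M N] [Algebra.IsAlgebraic L N]
    (u : Place k N) :
    resPl hL u = resPl hL (resPl hM u) ∧ ram hL u = ram hM u * ram hL (resPl hM u) := by
  apply resPl_ram_unique hL
  · have h1 := ram_pos hM u
    have h2 := ram_pos hL (resPl hM u)
    exact Nat.mul_pos h1 h2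
  · intro x
    rw [IsScalarTower.algebraMap_apply L M N, ord_algebraMap hM, ord_algebraMap hL]
    push_cast
    ring

/-- The norm formula for places in a finite separable extension. -/
theorem ord_norm_sep [IsAlgClosed k] (hL : IsFunctionField k L) [FiniteDimensional L M]
    [Algebra.IsSeparable L M] (v : Place k L) (f : M) (hf : f ≠ 0) :
    v.ord (Algebra.norm L f) = ∑ w ∈ fib (M := M) hL v, w.ord f := by
  classical
  have hM : IsFunctionField k M := isFunctionField_ext hL
  obtain ⟨N, iN, iLN, iMN, t1, f1, f2, g1, -⟩ := exists_galois_closure_gen L M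
  letI : Algebra k N := ((algebraMap M N).comp (algebraMap k M)).toAlgebra
  haveI : IsScalarTower k M N := IsScalarTower.of_algebraMap_eq fun x => rfl
  haveI : IsScalarTower k L N := IsScalarTower.of_algebraMap_eq fun x => by
    rw [IsScalarTower.algebraMap_apply k M N, IsScalarTower.algebraMap_apply k L M,
      ← IsScalarTower.algebraMap_apply L M N]
  have hfN : algebraMap M N f ≠ 0 := by simpa using hf
  have h1 := ord_norm_gal hL v (algebraMap M N f) hfN
  have h2 : Algebra.norm L (algebraMap M N f) =
      (Algebra.norm L f) ^ Module.finrank M N := by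
    rw [← Algebra.norm_norm (R := L) (S := M) (A := N), Algebra.norm_algebraMap, map_pow]
  rw [h2, place_ord_pow] at h1
  have h3 : ∑ u ∈ fib (M := N) hL v, u.ord (algebraMap M N f) =
      ∑ w ∈ fib (M := M) hL v, ∑ u ∈ (fib (M := N) hL v).filter (fun u => resPl hM u = w),
        u.ord (algebraMap M N f) := by
    refine (Finset.sum_fiberwise_of_maps_to (fun u hu => ?_) _).symm
    rw [mem_fib] at hu ⊢
    rw [← (resPl_resPl hL hM u).1, hu]
  have h4 : ∀ w ∈ fib (M := M) hL v, ∑ u ∈ (fib (M := N) hL v).filter (fun u => resPl hM u = w),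
        u.ord (algebraMap M N f) = Module.finrank M N * w.ord f := by
    intro w hw
    rw [mem_fib] at hw
    have h5 : (fib (M := N) hL v).filter (fun u => resPl hM u = w) = fib (M := N) hM w := by
      ext u
      rw [Finset.mem_filter, mem_fib, mem_fib]
      constructor
      · exact fun h => h.2
      · intro h
        refine ⟨?_, h⟩
        rw [(resPl_resPl hL hM u).1, h, hw]
    rw [h5]
    have h6 : ∀ u ∈ fib (M := N) hM w, u.ord (algebraMap M N f) = (ram hM u : ℤ) * w.ord f := by
      intro u hu
      rw [ord_algebraMap hM, (mem_fib hM w u).1 hu]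
    rw [Finset.sum_congr rfl h6, ← Finset.sum_mul, ← Nat.cast_sum, sum_fib]
  rw [h3, Finset.sum_congr rfl h4, ← Finset.mul_sum] at h1
  have hr : (Module.finrank M N : ℤ) ≠ 0 := by
    have : 0 < Module.finrank M N := Module.finrank_pos
    positivity
  exact mul_left_cancel₀ hr h1

/-- The norm formula, in terms of divisors. -/
theorem mapDomain_prin_sep [IsAlgClosed k] (hL : IsFunctionField k L) (hM : IsFunctionField k M)
    [FiniteDimensional L M] [Algebra.IsSeparable L M] (f : M) (hf : f ≠ 0) :
    Finsupp.mapDomain (resPl hL) (prin hM f) = prin hL (Algebra.norm L f) := by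
  classical
  ext v
  change _ = v.ord (Algebra.norm L f)
  rw [ord_norm_sep hL v f hf, Finsupp.mapDomain, Finsupp.sum_apply, Finsupp.sum]
  have h1 : ∀ w ∈ (prin hM f).support, (Finsupp.single (resPl hL w) (prin hM f w) : Dv k L) v =
      if resPl hL w = v then w.ord f else 0 := by
    intro w _
    rw [Finsupp.single_apply]
    rfl
  rw [Finset.sum_congr rfl h1, ← Finset.sum_filter]
  apply Finset.sum_subset_zero_on_sdiff
  · intro w hw
    rw [mem_fib]
    exact (Finset.mem_filter.1 hw).2
  · intro w hw
    rw [Finset.mem_sdiff, mem_fib, Finset.mem_filter, not_and] at hw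
    by_contra hne
    exact hw.2 (Finsupp.mem_support_iff.2 hne) hw.1
  · intro w _
    rfl

end sep

end Pool.Agent.Helper47.RR
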